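import Pool.Agent.Helper84.FX.StX

set_option autoImplicit false

namespace Pool.Agent.Helper33.FX

open Pool.Agent.Helper84.FX Pool.Agent.Helper72.FX

private theorem smooth_aeval (P : MvPolynomial (Fin 3) ℂ) :
    ContDiff ℂ (⊤ : ℕ∞) (fun q : ℂ × ℂ × ℂ =>
      MvPolynomial.aeval (![q.1, q.2.1, q.2.2] : Fin 3 → ℂ) P) := by
  induction P using MvPolynomial.induction_on with
  | C a =>
    simp only [MvPolynomial.aeval_C]
    exact contDiff_const
  | add p q hp hq =>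
    simp only [map_add]
    exact hp.add hq
  | mul_X p i hp =>
    simp only [map_mul, MvPolynomial.aeval_X]
    refine hp.mul ?_
    fin_cases i
    · exact contDiff_fst
    · exact contDiff_fst.comp contDiff_snd
    · exact contDiff_snd.comp contDiff_snd

theorem hKSM : StKSM := by
  have hx : ContDiff ℂ (⊤ : ℕ∞) (fun q : ℂ × ℂ × ℂ => kx q.1 q.2.1 q.2.2) := smooth_aeval (kp 0)
  have hy : ContDiff ℂ (⊤ : ℕ∞) (fun q : ℂ × ℂ × ℂ => ky q.1 q.2.1 q.2.2) := smooth_aeval (kp 1)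
  have hz : ContDiff ℂ (⊤ : ℕ∞) (fun q : ℂ × ℂ × ℂ => kz q.1 q.2.1 q.2.2) := smooth_aeval (kp 2)
  have h1 : ContDiff ℂ (⊤ : ℕ∞) (fun q : ℂ × ℂ × ℂ => q.1) := contDiff_fst
  have h2 : ContDiff ℂ (⊤ : ℕ∞) (fun q : ℂ × ℂ × ℂ => q.2.1) := contDiff_fst.comp contDiff_snd
  have h3 : ContDiff ℂ (⊤ : ℕ∞) (fun q : ℂ × ℂ × ℂ => q.2.2) := contDiff_snd.comp contDiff_snd
  refine ⟨hx, hy, hz, ?_, ?_⟩
  · unfold kappa
    exact ((h3.mul hx).mul hy).sub (hz.pow 2)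
  · unfold nu
    exact ((contDiff_const.mul h2).add (h3.mul (h2.pow 2))).sub (h1.pow 2)

end Pool.Agent.Helper33.FX
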