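import Pool.Agent.Helper84.FX.StT

/-!
# Project FX, module LFT (relative lifting for cellular pairs)
-/

set_option autoImplicit false

namespace Pool.Agent.Helper33.FX

open Pool.Agent.Helper84.FX Set

/-- goodness of a pair (lift, homotopy) on a set -/
private def Gd {E F : Type} [TopologicalSpace E] [TopologicalSpace F] (X : Set E) (Y : Set F)
    (f : E → F) {d : ℕ} (b : (Fin d → ℝ) → F) (S : Set (Fin d → ℝ))
    (Φ : (Fin d → ℝ) → E × (ℝ → F)) : Prop :=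
  (ContinuousOn (fun u => (Φ u).1) S ∧ ContinuousOn (fun q : ℝ × (Fin d → ℝ) => (Φ q.2).2 q.1) (II ×ˢ S)) ∧
  (∀ u ∈ S, (Φ u).1 ∈ X) ∧ (∀ s ∈ II, ∀ u ∈ S, (Φ u).2 s ∈ Y) ∧
  (∀ u ∈ S, (Φ u).2 0 = b u) ∧ ∀ u ∈ S, (Φ u).2 1 = f (Φ u).1

private lemma gd_congr {E F : Type} [TopologicalSpace E] [TopologicalSpace F] (X : Set E) (Y : Set F)
    (f : E → F) {d : ℕ} (b : (Fin d → ℝ) → F) (S : Set (Fin d → ℝ))
    (Φ Φ' : (Fin d → ℝ) → E × (ℝ → F)) (h : Gd X Y f b S Φ)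
    (h1 : ∀ u ∈ S, (Φ' u).1 = (Φ u).1) (h2 : ∀ s ∈ II, ∀ u ∈ S, (Φ' u).2 s = (Φ u).2 s) :
    Gd X Y f b S Φ' := by
  obtain ⟨⟨a1, a2⟩, a3, a4, a5, a6⟩ := h
  have z0 : (0 : ℝ) ∈ II := ⟨le_refl _, zero_le_one⟩
  have z1 : (1 : ℝ) ∈ II := ⟨zero_le_one, le_refl _⟩
  refine ⟨⟨a1.congr h1, a2.congr ?_⟩, ?_, ?_, ?_, ?_⟩
  · rintro ⟨s, u⟩ hq
    exact h2 s hq.1 u hq.2
  · intro u hu
    rw [h1 u hu]; exact a3 u hu
  · intro s hs u hu
    rw [h2 s hs u hu]; exact a4 s hs u hu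
  · intro u hu
    rw [h2 0 z0 u hu]; exact a5 u hu
  · intro u hu
    rw [h2 1 z1 u hu, h1 u hu]; exact a6 u hu

private lemma gd_union {E F : Type} [TopologicalSpace E] [TopologicalSpace F] (X : Set E) (Y : Set F)
    (f : E → F) {d : ℕ} (b : (Fin d → ℝ) → F) (S S' : Set (Fin d → ℝ))
    (Φ : (Fin d → ℝ) → E × (ℝ → F)) (hS : IsClosed S) (hS' : IsClosed S')
    (h : Gd X Y f b S Φ) (h' : Gd X Y f b S' Φ) : Gd X Y f b (S ∪ S') Φ := by
  obtain ⟨⟨a1, a2⟩, a3, a4, a5, a6⟩ := h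
  obtain ⟨⟨b1, b2⟩, b3, b4, b5, b6⟩ := h'
  refine ⟨⟨a1.union_of_isClosed b1 hS hS', ?_⟩, ?_, ?_, ?_, ?_⟩
  · rw [Set.prod_union]
    exact a2.union_of_isClosed b2 (isClosed_Icc.prod hS) (isClosed_Icc.prod hS')
  · rintro u (hu | hu)
    · exact a3 u hu
    · exact b3 u hu
  · rintro s hs u (hu | hu)
    · exact a4 s hs u hu
    · exact b4 s hs u hu
  · rintro u (hu | hu)
    · exact a5 u hu
    · exact b5 u hu
  · rintro u (hu | hu)
    · exact a6 u hu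
    · exact b6 u hu

private lemma gd_mono {E F : Type} [TopologicalSpace E] [TopologicalSpace F] (X : Set E) (Y : Set F)
    (f : E → F) {d : ℕ} (b : (Fin d → ℝ) → F) (S S' : Set (Fin d → ℝ))
    (Φ : (Fin d → ℝ) → E × (ℝ → F)) (hS : S' ⊆ S)
    (h : Gd X Y f b S Φ) : Gd X Y f b S' Φ := by
  obtain ⟨⟨a1, a2⟩, a3, a4, a5, a6⟩ := h
  exact ⟨⟨a1.mono hS, a2.mono (Set.prod_mono (le_refl _) hS)⟩, fun u hu => a3 u (hS hu),
    fun s hs u hu => a4 s hs u (hS hu), fun u hu => a5 u (hS hu), fun u hu => a6 u (hS hu)⟩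

theorem hLFT (_hIFC : StIFC) (hCPR : StCPR) (hCEL : StCEL) (hWEP : StWEP) : StLFT := by
  classical
  intro E F _ _ X Y f hWE d C D hC hD hDC a b K ha hb hK hK0 hK1
  have hWR := hWEP E F X Y f hWE
  -- extension over a cell
  have hext : ∀ e ∈ C, e ∉ D → ∀ Φ : (Fin d → ℝ) → E × (ℝ → F), Gd X Y f b (cbd e) Φ →
      ∃ Φ', Gd X Y f b (cel e) Φ' ∧ ∀ u ∈ cbd e, Φ' u = Φ u := by
    intro e he _ Φ hΦ
    obtain ⟨φ, π, hφ, hπ, h1, h2, h3, h4, h5⟩ := hCPR d e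
    obtain ⟨⟨a1, a2⟩, a3, a4, a5, a6⟩ := hΦ
    have hsub : cel e ⊆ spt C := fun u hu => ⟨e, he, hu⟩
    have hcb : cbd e ⊆ cel e := fun u hu => hu.1
    obtain ⟨c, H, hc, hca, hH, hH0, hH1, hHK⟩ := hWR e.2.card (fun v => (Φ (φ v)).1)
      (fun v => b (φ v)) (fun q => (Φ (φ q.2)).2 q.1)
      ⟨a1.comp hφ.continuousOn (fun v hv => h5 v hv), fun v hv => a3 _ (h5 v hv)⟩
      ⟨(hb.1.mono hsub).comp hφ.continuousOn (fun v hv => h2 v hv), fun v hv => hb.2 (hsub (h2 v hv))⟩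
      ⟨by
        have hm : MapsTo (fun q : ℝ × (Fin e.2.card → ℝ) => (q.1, φ q.2)) (II ×ˢ Bd e.2.card)
            (II ×ˢ cbd e) := fun q hq => ⟨hq.1, h5 _ hq.2⟩
        exact a2.comp (f := fun q : ℝ × (Fin e.2.card → ℝ) => (q.1, φ q.2))
          (continuous_fst.prodMk (hφ.comp continuous_snd)).continuousOn hm,
       fun q hq => a4 q.1 hq.1 _ (h5 _ hq.2)⟩
      (fun v hv => a5 _ (h5 v hv)) (fun v hv => a6 _ (h5 v hv))
    have z0 : (0 : ℝ) ∈ II := ⟨le_refl _, zero_le_one⟩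
    have z1 : (1 : ℝ) ∈ II := ⟨zero_le_one, le_refl _⟩
    -- the transported lift
    have hΨ : Gd X Y f b (cel e) (fun u => (c (π u), fun s => H (s, π u))) := by
      refine ⟨⟨?_, ?_⟩, ?_, ?_, ?_, ?_⟩
      · exact hc.1.comp hπ.continuousOn (fun u hu => (h3 u hu).1)
      · have hm : MapsTo (fun q : ℝ × (Fin d → ℝ) => (q.1, π q.2)) (II ×ˢ cel e)
            (II ×ˢ Cb e.2.card) := fun q hq => ⟨hq.1, (h3 _ hq.2).1⟩
        exact hH.1.comp (f := fun q : ℝ × (Fin d → ℝ) => (q.1, π q.2))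
          (continuous_fst.prodMk (hπ.comp continuous_snd)).continuousOn hm
      · intro u hu
        exact hc.2 (h3 u hu).1
      · intro s hs u hu
        exact hH.2 (show (s, π u) ∈ II ×ˢ Cb e.2.card from ⟨hs, (h3 u hu).1⟩)
      · intro u hu
        show H (0, π u) = b u
        rw [hH0 _ (h3 u hu).1, (h3 u hu).2]
      · intro u hu
        exact hH1 _ (h3 u hu).1
    refine ⟨fun u => if u ∈ cbd e then Φ u else (c (π u), fun s => H (s, π u)), ?_, ?_⟩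
    · refine gd_congr X Y f b (cel e) _ _ hΨ ?_ ?_
      · intro u hu
        by_cases hub : u ∈ cbd e
        · simp only [hub, if_true]
          rw [hca _ (h4 u hub), (h3 u hu).2]
        · simp only [hub, if_false]
      · intro s hs u hu
        by_cases hub : u ∈ cbd e
        · simp only [hub, if_true]
          rw [hHK s hs _ (h4 u hub), (h3 u hu).2]
        · simp only [hub, if_false]
    · intro u hu
      simp only [hu, if_true]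
  obtain ⟨Φ, hΦ, hΦ0⟩ := hCEL d C D hC hD hDC (E × (ℝ → F)) (Gd X Y f b)
    (fun S Ψ Ψ' h h' => gd_congr X Y f b S Ψ Ψ' h (fun u hu => by rw [h' u hu])
      (fun s _ u hu => by rw [h' u hu]))
    (fun S S' Ψ hS hS' h h' => gd_union X Y f b S S' Ψ hS.isClosed hS'.isClosed h h')
    (fun S S' Ψ hS h => gd_mono X Y f b S S' Ψ hS h) hext
    (fun u => (a u, fun s => K (s, u)))
    ⟨⟨ha.1, hK.1⟩, fun u hu => ha.2 hu,
      fun s hs u hu => hK.2 (show (s, u) ∈ II ×ˢ spt D from ⟨hs, hu⟩), hK0, hK1⟩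
  obtain ⟨⟨a1, a2⟩, a3, a4, a5, a6⟩ := hΦ
  refine ⟨fun u => (Φ u).1, fun q => (Φ q.2).2 q.1, ⟨a1, a3⟩, ?_, ⟨a2, ?_⟩, a5, a6, ?_⟩
  · intro u hu
    show (Φ u).1 = a u
    rw [hΦ0 u hu]
  · rintro ⟨s, u⟩ hq
    exact a4 s hq.1 u hq.2
  · intro s _ u hu
    show (Φ u).2 s = K (s, u)
    rw [hΦ0 u hu]

end Pool.Agent.Helper33.FX
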