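import Pool.Agent.Helper65.FX.St

set_option autoImplicit false

namespace Pool.Agent.Helper33.FX

open Set Topology Metric
open scoped ContDiff
open Pool.Agent.Helper65.FX Pool.Agent.Helper87.FX

theorem hUCT : StUCT := by
  intro T E _ _ _ _ O Ψ ε hε hcont hlip h0
  have h0mem : (0 : E) ∈ closedBall (0 : E) ε := by simp [hε.le]
  -- existence
  have hex : ∀ t ∈ O, ∃ u ∈ closedBall (0 : E) ε, Ψ t u = 0 := by
    intro t ht
    have hmaps : MapsTo (fun u => u - Ψ t u) (closedBall (0 : E) ε) (closedBall (0 : E) ε) := by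
      intro u hu
      have h1 := hlip t ht u hu 0 h0mem
      have h2 := h0 t ht
      have hu' : ‖u‖ ≤ ε := by simpa using hu
      have h3 : u - Ψ t u = -(Ψ t u - Ψ t 0 - (u - 0)) - Ψ t 0 := by
        simp only [sub_zero]; abel
      have h4 : ‖u - Ψ t u‖ ≤ ‖Ψ t u - Ψ t 0 - (u - 0)‖ + ‖Ψ t 0‖ := by
        rw [h3]
        refine (norm_sub_le _ _).trans ?_
        rw [norm_neg]
      have h5 : ‖u - 0‖ = ‖u‖ := by simp
      rw [h5] at h1
      show u - Ψ t u ∈ closedBall (0 : E) ε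
      rw [mem_closedBall_zero_iff]
      linarith
    have hcw : ContractingWith (1 / 2 : NNReal) (hmaps.restrict (fun u => u - Ψ t u)
        (closedBall (0 : E) ε) (closedBall (0 : E) ε)) := by
      refine ⟨by
        rw [← NNReal.coe_lt_coe]; norm_num, ?_⟩
      refine LipschitzWith.of_dist_le_mul ?_
      rintro ⟨u, hu⟩ ⟨u', hu'⟩
      have h1 := hlip t ht u hu u' hu'
      rw [Subtype.dist_eq, Subtype.dist_eq]
      show dist (u - Ψ t u) (u' - Ψ t u') ≤ _ * dist u u'
      rw [dist_eq_norm, dist_eq_norm]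
      have h3 : u - Ψ t u - (u' - Ψ t u') = -(Ψ t u - Ψ t u' - (u - u')) := by abel
      rw [h3, norm_neg]
      have h4 : ((1 / 2 : NNReal) : ℝ) = 1 / 2 := by norm_num
      rw [h4]
      linarith
    obtain ⟨y, hy, hfix, -⟩ := ContractingWith.exists_fixedPoint'
      (isCompact_closedBall (0 : E) ε).isComplete hmaps hcw h0mem (edist_ne_top _ _)
    refine ⟨y, hy, ?_⟩
    have : y - Ψ t y = y := hfix
    exact sub_eq_self.1 this
  have huniq : ∀ t ∈ O, ∀ u ∈ closedBall (0 : E) ε, ∀ u' ∈ closedBall (0 : E) ε,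
      ‖u - u'‖ ≤ 2 * ‖Ψ t u - Ψ t u'‖ := by
    intro t ht u hu u' hu'
    have h1 := hlip t ht u hu u' hu'
    have h2 : u - u' = (Ψ t u - Ψ t u') - (Ψ t u - Ψ t u' - (u - u')) := by abel
    have h3 : ‖u - u'‖ ≤ ‖Ψ t u - Ψ t u'‖ + ‖Ψ t u - Ψ t u' - (u - u')‖ := by
      conv_lhs => rw [h2]
      exact norm_sub_le _ _
    linarith
  classical
  let s : T → E := fun t => if h : t ∈ O then (hex t h).choose else 0
  have hs : ∀ t ∈ O, s t ∈ closedBall (0 : E) ε ∧ Ψ t (s t) = 0 := by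
    intro t ht
    have : s t = (hex t ht).choose := by simp [s, ht]
    rw [this]
    exact (hex t ht).choose_spec
  refine ⟨s, ?_, hs, ?_⟩
  · intro t ht
    have hc := hcont (s t) (hs t ht).1 t ht
    rw [ContinuousWithinAt, tendsto_iff_norm_sub_tendsto_zero] at hc ⊢
    have hc2 : Filter.Tendsto (fun t' => 2 * ‖Ψ t' (s t) - Ψ t (s t)‖) (𝓝[O] t) (𝓝 0) := by
      have := hc.const_mul 2
      simpa using this
    refine squeeze_zero' (Filter.Eventually.of_forall fun _ => norm_nonneg _) ?_ hc2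
    filter_upwards [self_mem_nhdsWithin] with t' ht'
    have h1 := huniq t' ht' (s t) (hs t ht).1 (s t') (hs t' ht').1
    rw [(hs t' ht').2, sub_zero] at h1
    rw [(hs t ht).2, sub_zero, norm_sub_rev]
    exact h1
  · intro t ht u hu hu0
    have h1 := huniq t ht u hu (s t) (hs t ht).1
    rw [hu0, (hs t ht).2, sub_zero, norm_zero, mul_zero] at h1
    exact sub_eq_zero.1 (norm_le_zero_iff.1 h1)

end Pool.Agent.Helper33.FX
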